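import Mathlib
import Pool.Agent.N11.UnivC
import Pool.Agent.N11.MagicSq

/-!
# Isomorphism game algebras which do not embed into group C*-algebras of solution groups

The full C*-algebra of a group has the trivial character. A unital homomorphism from the game algebra
`A(G, H)` to `ℂ` is a perfect deterministic strategy, so that `G` and `H` are isomorphic. The two
graphs of the Mermin-Peres magic square are quantum isomorphic, but not isomorphic.
-/

set_option autoImplicit false

noncomputable section

namespace Pool.Agent.Results.MP_3b70de_al.NoUnitalEmbedding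

open Pool.Agent.N11

section Defs

/-- The relation (equal, adjacent, distinct and non-adjacent) of `g`, `g'` in `G` is the relation of
`h`, `h'` in `H`. -/
def SameRel {V W : Type} (G : SimpleGraph V) (H : SimpleGraph W) (g g' : V) (h h' : W) : Prop :=
  (g = g' ↔ h = h') ∧ (G.Adj g g' ↔ H.Adj h h')

/-- The relations of the isomorphism game algebra of `G` and `H`: `p` is a quantum permutation
matrix, and `p g h * p g' h' = 0` if the relation of `g`, `g'` differs from that of `h`, `h'`. -/
structure GameRel {V W : Type} [Fintype V] [Fintype W] (G : SimpleGraph V) (H : SimpleGraph W)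
    (A : Type) [CStarAlgebra A] (p : V → W → A) : Prop where
  star_eq : ∀ g h, star (p g h) = p g h
  mul_self : ∀ g h, p g h * p g h = p g h
  row : ∀ g, ∑ h, p g h = 1
  col : ∀ h, ∑ g, p g h = 1
  orth : ∀ g g' h h', ¬ SameRel G H g g' h h' → p g h * p g' h' = 0

/-- `A`, with the matrix `p`, is the isomorphism game algebra `𝒜(G, H)`: the universal unital
C*-algebra generated by the entries of a matrix with the relations above. -/
structure IsGameAlgebra {V W : Type} [Fintype V] [Fintype W] (G : SimpleGraph V)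
    (H : SimpleGraph W) (A : Type) [CStarAlgebra A] (p : V → W → A) : Prop where
  rel : GameRel G H A p
  generates : Dense (Algebra.adjoin ℂ (Set.range fun x : V × W => p x.1 x.2) : Set A)
  univ : ∀ (B : Type) [CStarAlgebra B] (q : V → W → B), GameRel G H B q →
    ∃ φ : A →⋆ₐ[ℂ] B, ∀ g h, φ (p g h) = q g h

/-- The relators of the solution group of the binary linear system `M x = b`; the generator `J` is
`none`, the generator `g_i` is `some i`. -/
def relators {m n : ℕ} (M : Matrix (Fin m) (Fin n) (ZMod 2)) (b : Fin m → ZMod 2) :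
    Set (FreeGroup (Option (Fin n))) :=
  {FreeGroup.of none * FreeGroup.of none} ∪
  {r | ∃ i, r = FreeGroup.of (some i) * FreeGroup.of (some i)} ∪
  {r | ∃ i, r = FreeGroup.of none * FreeGroup.of (some i) *
      (FreeGroup.of (some i) * FreeGroup.of none)⁻¹} ∪
  {r | ∃ i j k, M k i = 1 ∧ M k j = 1 ∧ r = FreeGroup.of (some i) * FreeGroup.of (some j) *
      (FreeGroup.of (some j) * FreeGroup.of (some i))⁻¹} ∪
  {r | ∃ k, r = (List.ofFn fun i => FreeGroup.of (some i) ^ (M k i).val).prod *
      (FreeGroup.of none ^ (b k).val)⁻¹}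

/-- The solution group `Γ(M, b)`. -/
abbrev SolutionGroup {m n : ℕ} (M : Matrix (Fin m) (Fin n) (ZMod 2)) (b : Fin m → ZMod 2) : Type :=
  PresentedGroup (relators M b)

/-- `B`, with the unitary representation `u` of the group `Γ`, is the full group C*-algebra of
`Γ`. -/
structure IsFullGroupCStar (Γ : Type) [Group Γ] (B : Type) [CStarAlgebra B]
    (u : Γ →* unitary B) : Prop where
  generates : Dense (Algebra.adjoin ℂ (Set.range fun g : Γ => (u g : B)) : Set B)
  univ : ∀ (C : Type) [CStarAlgebra C] (v : Γ →* unitary C),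
    ∃ φ : B →⋆ₐ[ℂ] C, ∀ g : Γ, φ (u g) = v g

end Defs

section Classical

variable {V W : Type} [Fintype V] [Fintype W] {G : SimpleGraph V} {H : SimpleGraph W}

/-- A character of the game algebra gives an isomorphism. -/
lemma iso_of_scalar {q : V → W → ℂ} (hq : GameRel G H ℂ q) : Nonempty (G ≃g H) := by
  classical
  have h01 : ∀ g h, q g h = 0 ∨ q g h = 1 := by
    intro g h
    have h1 : q g h * (q g h - 1) = 0 := by rw [mul_sub, hq.mul_self, mul_one, sub_self]
    rcases mul_eq_zero.mp h1 with h2 | h2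
    · exact Or.inl h2
    · exact Or.inr (sub_eq_zero.mp h2)
  have hex : ∀ g, ∃ h, q g h = 1 := by
    intro g
    by_contra hcon
    push Not at hcon
    have : ∑ h, q g h = 0 := Finset.sum_eq_zero fun h _ => (h01 g h).resolve_right (hcon h)
    rw [hq.row] at this
    exact one_ne_zero this
  have hex' : ∀ h, ∃ g, q g h = 1 := by
    intro h
    by_contra hcon
    push Not at hcon
    have : ∑ g, q g h = 0 := Finset.sum_eq_zero fun g _ => (h01 g h).resolve_right (hcon g)
    rw [hq.col] at this
    exact one_ne_zero this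
  have hrel : ∀ g g' h h', q g h = 1 → q g' h' = 1 → SameRel G H g g' h h' := by
    intro g g' h h' h1 h2
    by_contra hcon
    have := hq.orth g g' h h' hcon
    rw [h1, h2, one_mul] at this
    exact one_ne_zero this
  choose f hf using hex
  choose f' hf' using hex'
  refine ⟨{ toFun := f, invFun := f', left_inv := ?_, right_inv := ?_, map_rel_iff' := ?_ }⟩
  · intro g
    exact (hrel _ _ _ _ (hf' (f g)) (hf g)).1.mpr rfl
  · intro h
    exact (hrel _ _ _ _ (hf (f' h)) (hf' h)).1.mp rfl
  · intro g g'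
    exact (hrel _ _ _ _ (hf g) (hf g')).2.symm

lemma map_rel {A B : Type} [CStarAlgebra A] [CStarAlgebra B] {p : V → W → A}
    (hp : GameRel G H A p) (φ : A →⋆ₐ[ℂ] B) : GameRel G H B fun g h => φ (p g h) where
  star_eq g h := by rw [← map_star, hp.star_eq]
  mul_self g h := by rw [← map_mul, hp.mul_self]
  row g := by rw [← map_sum, hp.row, map_one]
  col h := by rw [← map_sum, hp.col, map_one]
  orth g g' h h' hs := by rw [← map_mul, hp.orth g g' h h' hs, map_zero]

/-- If the game algebra has a unital homomorphism to the full C*-algebra of some group, then the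
graphs are isomorphic. -/
lemma iso_of_hom {A B : Type} [CStarAlgebra A] [CStarAlgebra B] {p : V → W → A}
    (hp : GameRel G H A p) {Γ : Type} [Group Γ] {u : Γ →* unitary B}
    (hu : IsFullGroupCStar Γ B u) (φ : A →⋆ₐ[ℂ] B) : Nonempty (G ≃g H) := by
  obtain ⟨χ, _⟩ := hu.univ ℂ 1
  exact iso_of_scalar (map_rel (map_rel hp φ) χ)

end Classical

section Exist

open scoped ENNReal

/-- The relations of the game algebra define a universal C*-algebra. -/
lemma good_game {V W : Type} [Fintype V] [Fintype W] (G : SimpleGraph V) (H : SimpleGraph W) :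
    UC.Good (S := V × W) (fun (B : Type) [CStarAlgebra B] (q : V × W → B) =>
      GameRel G H B fun g h => q (g, h)) id where
  star_eq B _ q hq s := hq.star_eq s.1 s.2
  bdd s := by
    refine ⟨1, fun B _ q hq => ?_⟩
    have h1 : ‖q s‖ * ‖q s‖ = ‖q s‖ := by
      have h2 := CStarRing.norm_star_mul_self (x := q s)
      rw [hq.star_eq s.1 s.2, hq.mul_self s.1 s.2] at h2
      exact h2.symm
    nlinarith [norm_nonneg (q s), mul_self_nonneg (‖q s‖ - 1)]
  prod I B _ _ q hq := by
    refine @GameRel.mk V W _ _ G H _ (_) _ ?_ ?_ ?_ ?_ ?_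
    · intro g h
      apply lp.ext
      funext i
      exact (hq i).star_eq g h
    · intro g h
      apply lp.ext
      funext i
      exact (hq i).mul_self g h
    · intro g
      apply lp.ext
      funext i
      rw [lp.coeFn_sum, Finset.sum_apply]
      exact (hq i).row g
    · intro h
      apply lp.ext
      funext i
      rw [lp.coeFn_sum, Finset.sum_apply]
      exact (hq i).col h
    · intro g g' h h' hs
      apply lp.ext
      funext i
      exact (hq i).orth g g' h h' hs
  sub A B _ _ φ hφ q hq := by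
    refine ⟨?_, ?_, ?_, ?_, ?_⟩
    · intro g h
      apply hφ
      rw [map_star]
      exact hq.star_eq g h
    · intro g h
      apply hφ
      rw [map_mul]
      exact hq.mul_self g h
    · intro g
      apply hφ
      rw [map_sum, map_one]
      exact hq.row g
    · intro h
      apply hφ
      rw [map_sum, map_one]
      exact hq.col h
    · intro g g' h h' hs
      apply hφ
      rw [map_mul, map_zero]
      exact hq.orth g g' h h' hs

/-- If the relations have a solution in some nonzero C*-algebra, then the game algebra exists and is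
nonzero. -/
lemma exists_game {V W : Type} [Fintype V] [Fintype W] (G : SimpleGraph V) (H : SimpleGraph W)
    {B : Type} [CStarAlgebra B] [Nontrivial B] {q : V → W → B} (hq : GameRel G H B q) :
    ∃ (A : Type) (_ : CStarAlgebra A) (p : V → W → A), IsGameAlgebra G H A p ∧ Nontrivial A := by
  obtain ⟨A, _, p, hp, hd, hu⟩ := UC.exists_universal (good_game G H)
    ⟨⟨B, inferInstance, inferInstance, fun x => q x.1 x.2, hq⟩⟩
  refine ⟨A, inferInstance, fun g h => p (g, h), ⟨hp, hd, ?_⟩, ?_⟩
  · intro C _ r hr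
    obtain ⟨φ, hφ⟩ := hu C (fun x => r x.1 x.2) hr
    exact ⟨φ, fun g h => hφ (g, h)⟩
  · obtain ⟨φ, _⟩ := hu B (fun x => q x.1 x.2) hq
    by_contra hcon
    rw [not_nontrivial_iff_subsingleton] at hcon
    have h1 : φ (1 : A) = φ 0 := congrArg φ (Subsingleton.elim _ _)
    rw [map_one, map_zero] at h1
    exact one_ne_zero h1

/-- The relations of the full group C*-algebra. -/
lemma good_group (Γ : Type) [Group Γ] :
    UC.Good (S := Γ) (fun (B : Type) [CStarAlgebra B] (q : Γ → B) =>
      q 1 = 1 ∧ (∀ g h, q (g * h) = q g * q h) ∧ ∀ g, star (q g) = q g⁻¹) (·⁻¹) where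
  star_eq B _ q hq s := hq.2.2 s
  bdd s := by
    refine ⟨1, fun B _ q hq => ?_⟩
    rcases subsingleton_or_nontrivial B with h | h
    · rw [Subsingleton.elim (q s) 0, norm_zero]
      exact zero_le_one
    · have h2 := CStarRing.norm_star_mul_self (x := q s)
      rw [hq.2.2, ← hq.2.1, inv_mul_cancel, hq.1, norm_one] at h2
      nlinarith [norm_nonneg (q s)]
  prod I B _ _ q hq := by
    refine ⟨?_, ?_, ?_⟩
    · apply lp.ext
      funext i
      exact (hq i).1
    · intro g h
      apply lp.ext
      funext i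
      exact (hq i).2.1 g h
    · intro g
      apply lp.ext
      funext i
      exact (hq i).2.2 g
  sub A B _ _ φ hφ q hq := by
    refine ⟨?_, ?_, ?_⟩
    · apply hφ
      rw [map_one]
      exact hq.1
    · intro g h
      apply hφ
      rw [map_mul]
      exact hq.2.1 g h
    · intro g
      apply hφ
      rw [map_star]
      exact hq.2.2 g

lemma exists_group (Γ : Type) [Group Γ] :
    ∃ (B : Type) (_ : CStarAlgebra B) (u : Γ →* unitary B), IsFullGroupCStar Γ B u := by
  obtain ⟨A, _, p, hp, hd, hu⟩ := UC.exists_universal (good_group Γ)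
    ⟨⟨ℂ, inferInstance, inferInstance, fun _ => 1, by simp⟩⟩
  have hun : ∀ g, p g ∈ unitary A := by
    intro g
    rw [Unitary.mem_iff, hp.2.2, ← hp.2.1, ← hp.2.1, inv_mul_cancel, mul_inv_cancel]
    exact ⟨hp.1, hp.1⟩
  refine ⟨A, inferInstance,
    { toFun := fun g => ⟨p g, hun g⟩
      map_one' := Subtype.ext hp.1
      map_mul' := fun g h => Subtype.ext (hp.2.1 g h) }, ⟨hd, ?_⟩⟩
  intro C _ v
  obtain ⟨φ, hφ⟩ := hu C (fun g => (v g : C)) ⟨by simp, by simp, fun g => by
    rw [← Unitary.coe_star, Unitary.star_eq_inv, ← map_inv]⟩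
  exact ⟨φ, hφ⟩

end Exist

section Magic

open MS

/-- the entries of the quantum permutation matrix of the magic square, as matrices -/
def pm (v w : Fin 6 × Fin 4) : Matrix (Fin 4) (Fin 4) ℂ :=
  if v.1 = w.1 then ((4 : ℂ)⁻¹) • (NN v.1 (xr v.2 w.2)).map (Int.cast : ℤ → ℂ) else 0

lemma map_mul_int (X Y : Matrix (Fin 4) (Fin 4) ℤ) :
    (X * Y).map (Int.cast : ℤ → ℂ) = X.map (Int.cast : ℤ → ℂ) * Y.map (Int.cast : ℤ → ℂ) := by
  have := Matrix.map_mul (L := X) (M := Y) (f := Int.castRingHom ℂ)
  exact this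

lemma pm_mul (v w v' w' : Fin 6 × Fin 4) (h1 : v.1 = w.1) (h2 : v'.1 = w'.1) :
    pm v w * pm v' w' = ((16 : ℂ)⁻¹) •
      (NN v.1 (xr v.2 w.2) * NN v'.1 (xr v'.2 w'.2)).map (Int.cast : ℤ → ℂ) := by
  unfold pm
  rw [if_pos h1, if_pos h2, smul_mul_smul_comm, map_mul_int]
  norm_num

lemma pm_row_aux (k : Fin 6) (j : Fin 4) :
    ∑ i : Fin 4, NN k (xr j i) = 4 := by
  have h : ∀ k : Fin 6, ∀ j : Fin 4, NN k (xr j 0) + NN k (xr j 1) + NN k (xr j 2) +
      NN k (xr j 3) = 4 := by decide +kernel
  rw [Fin.sum_univ_four]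
  exact h k j

lemma pm_col_aux (k : Fin 6) (i : Fin 4) :
    ∑ j : Fin 4, NN k (xr j i) = 4 := by
  have h : ∀ k : Fin 6, ∀ i : Fin 4, NN k (xr 0 i) + NN k (xr 1 i) + NN k (xr 2 i) +
      NN k (xr 3 i) = 4 := by decide +kernel
  rw [Fin.sum_univ_four]
  exact h k i

lemma map_four : ((4 : Matrix (Fin 4) (Fin 4) ℤ)).map (Int.cast : ℤ → ℂ) = 4 := by
  have h := map_ofNat ((Int.castRingHom ℂ).mapMatrix (m := Fin 4)) 4
  exact h

lemma sum_map (f : Fin 4 → Matrix (Fin 4) (Fin 4) ℤ) :
    ∑ i, (f i).map (Int.cast : ℤ → ℂ) = (∑ i, f i).map (Int.cast : ℤ → ℂ) := by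
  have h := map_sum ((Int.castRingHom ℂ).mapMatrix (m := Fin 4)) f Finset.univ
  exact h.symm

lemma four_smul : ((4 : ℂ)⁻¹) • (4 : Matrix (Fin 4) (Fin 4) ℂ) = 1 := by
  have : (4 : Matrix (Fin 4) (Fin 4) ℂ) = (4 : ℂ) • 1 := by
    rw [← Nat.cast_ofNat (R := Matrix (Fin 4) (Fin 4) ℂ), ← nsmul_one,
      ← Nat.cast_smul_eq_nsmul ℂ]
    simp
  rw [this, smul_smul]
  norm_num

lemma pm_row (v : Fin 6 × Fin 4) : ∑ w, pm v w = 1 := by
  rw [Fintype.sum_prod_type]
  rw [Finset.sum_eq_single v.1]
  · have : ∀ i, pm v (v.1, i) = ((4 : ℂ)⁻¹) • (NN v.1 (xr v.2 i)).map (Int.cast : ℤ → ℂ) := by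
      intro i
      unfold pm
      rw [if_pos rfl]
    simp_rw [this]
    rw [← Finset.smul_sum, sum_map, pm_row_aux, map_four, four_smul]
  · intro k _ hk
    apply Finset.sum_eq_zero
    intro i _
    unfold pm
    rw [if_neg (Ne.symm hk)]
  · intro h
    exact absurd (Finset.mem_univ _) h

lemma pm_col (w : Fin 6 × Fin 4) : ∑ v, pm v w = 1 := by
  rw [Fintype.sum_prod_type]
  rw [Finset.sum_eq_single w.1]
  · have : ∀ j, pm (w.1, j) w = ((4 : ℂ)⁻¹) • (NN w.1 (xr j w.2)).map (Int.cast : ℤ → ℂ) := by
      intro j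
      unfold pm
      rw [if_pos rfl]
    simp_rw [this]
    rw [← Finset.smul_sum, sum_map, pm_col_aux, map_four, four_smul]
  · intro k _ hk
    apply Finset.sum_eq_zero
    intro i _
    unfold pm
    rw [if_neg hk]
  · intro h
    exact absurd (Finset.mem_univ _) h

lemma pm_sq (v w : Fin 6 × Fin 4) : pm v w * pm v w = pm v w := by
  by_cases h : v.1 = w.1
  · rw [pm_mul v w v w h h, NN_sq]
    unfold pm
    rw [if_pos h, map_mul_int, map_four]
    have : (4 : Matrix (Fin 4) (Fin 4) ℂ) = (4 : ℂ) • 1 := by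
      rw [← four_smul, smul_smul]
      norm_num
    rw [this, smul_mul_assoc, one_mul, smul_smul]
    norm_num
  · unfold pm
    rw [if_neg h, mul_zero]

lemma pm_star (v w : Fin 6 × Fin 4) : star (pm v w) = pm v w := by
  unfold pm
  split_ifs with h
  · rw [star_smul, Matrix.star_eq_conjTranspose]
    have h1 : ((NN v.1 (xr v.2 w.2)).map (Int.cast : ℤ → ℂ)).conjTranspose =
        ((NN v.1 (xr v.2 w.2)).transpose).map (Int.cast : ℤ → ℂ) := by
      ext i j
      simp [Matrix.conjTranspose_apply, Matrix.map_apply]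
    rw [h1, NN_tr]
    congr 1
    simp
  · exact star_zero _

lemma pm_orth (v v' w w' : Fin 6 × Fin 4)
    (hs : ¬ SameRel (graph rhs) (graph fun _ => false) v v' w w') : pm v w * pm v' w' = 0 := by
  by_cases h1 : v.1 = w.1
  · by_cases h2 : v'.1 = w'.1
    · rw [pm_mul v w v' w' h1 h2]
      obtain ⟨k, j⟩ := v
      obtain ⟨k', j'⟩ := v'
      obtain ⟨l, i⟩ := w
      obtain ⟨l', i'⟩ := w'
      simp only at h1 h2
      subst h1 h2
      rcases same_or_bad k k' j j' i i' with h | h
      · exfalso
        apply hs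
        unfold same at h
        rw [Bool.and_eq_true, decide_eq_true_eq, decide_eq_true_eq] at h
        refine ⟨?_, ?_⟩
        · rw [Prod.mk.injEq, Prod.mk.injEq]
          exact h.1
        · exact h.2
      · rw [NN_orth _ _ _ _ h]
        ext a b
        simp
    · unfold pm
      rw [if_neg h2, mul_zero]
  · unfold pm
    rw [if_neg h1, zero_mul]

/-- the entries as operators on a Hilbert space of dimension four -/
def pop (v w : Fin 6 × Fin 4) :
    EuclideanSpace ℂ (Fin 4) →L[ℂ] EuclideanSpace ℂ (Fin 4) :=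
  Matrix.toEuclideanCLM (𝕜 := ℂ) (pm v w)

lemma pop_rel : GameRel (graph rhs) (graph fun _ => false)
    (EuclideanSpace ℂ (Fin 4) →L[ℂ] EuclideanSpace ℂ (Fin 4)) pop where
  star_eq v w := by unfold pop; rw [← map_star, pm_star]
  mul_self v w := by unfold pop; rw [← map_mul, pm_sq]
  row v := by unfold pop; rw [← map_sum, pm_row, map_one]
  col w := by unfold pop; rw [← map_sum, pm_col, map_one]
  orth v v' w w' h := by unfold pop; rw [← map_mul, pm_orth v v' w w' h, map_zero]

lemma not_iso : ¬ Nonempty (graph rhs ≃g graph fun _ => false) := by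
  rintro ⟨e⟩
  -- the vertices `(k, 0)` are pairwise non-adjacent
  have h0 : ∀ k k' : Fin 6, ¬ (graph fun _ => false).Adj (k, 0) (k', 0) := by decide +kernel
  have h1 : ∀ k : Fin 6, ∀ i i' : Fin 4, i ≠ i' → (graph rhs).Adj (k, i) (k, i') := by
    decide +kernel
  let s : Fin 6 → Fin 6 × Fin 4 := fun k => e.symm (k, 0)
  have hs : ∀ k k', ¬ (graph rhs).Adj (s k) (s k') := by
    intro k k' h
    apply h0 k k'
    have := e.map_rel_iff.mpr h
    simpa [s] using this
  have hinj : Function.Injective fun k => (s k).1 := by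
    intro k k' h
    simp only at h
    by_contra hne
    have h2 : (s k).2 ≠ (s k').2 := by
      intro h3
      have h4 : s k = s k' := Prod.ext h h3
      have h5 := e.symm.injective h4
      exact hne (Prod.mk.inj h5).1
    apply hs k k'
    have h6 := h1 (s k).1 (s k).2 (s k').2 h2
    have h7 : ((s k).1, (s k').2) = s k' := by rw [h]
    rw [h7] at h6
    exact h6
  have hsurj := Finite.surjective_of_injective hinj
  choose σ hσ using hsurj
  obtain ⟨k, k', hk, hadj⟩ := no_indep (s (σ 0)).2 (s (σ 1)).2 (s (σ 2)).2 (s (σ 3)).2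
    (s (σ 4)).2 (s (σ 5)).2
  have hv : ∀ k : Fin 6, (k, ![(s (σ 0)).2, (s (σ 1)).2, (s (σ 2)).2, (s (σ 3)).2,
      (s (σ 4)).2, (s (σ 5)).2] k) = s (σ k) := by
    intro k
    refine Prod.ext ?_ ?_
    · exact (hσ k).symm
    · fin_cases k <;> rfl
  rw [hv, hv] at hadj
  exact hs _ _ hadj

end Magic

/-- **Negative answer to Q1.**
(1) If the isomorphism game algebra of two finite graphs `G`, `H` has a unital `*`-homomorphism
(injective or not) to the full C*-algebra of a solution group, or of any group, then `G` and `H` are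
isomorphic.
(2) For the two graphs with 24 vertices of the Mermin-Peres magic square the game algebra exists and
is nonzero (they are quantum isomorphic), they are not isomorphic, and so for no binary linear
system `M x = b` is there a unital injective `*`-homomorphism from the game algebra to the full
C*-algebra of `Γ(M, b)` (which always exists). -/
theorem result :
    (∀ (V W : Type) [Fintype V] [Fintype W] (G : SimpleGraph V) (H : SimpleGraph W)
      (A : Type) [CStarAlgebra A] (p : V → W → A), IsGameAlgebra G H A p →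
      ∀ (Γ : Type) [Group Γ] (B : Type) [CStarAlgebra B] (u : Γ →* unitary B),
        IsFullGroupCStar Γ B u → Nonempty (A →⋆ₐ[ℂ] B) → Nonempty (G ≃g H)) ∧
    (∃ (A : Type) (_ : CStarAlgebra A) (p : Fin 6 × Fin 4 → Fin 6 × Fin 4 → A),
      IsGameAlgebra (MS.graph MS.rhs) (MS.graph fun _ => false) A p ∧ Nontrivial A ∧
      ¬ Nonempty (MS.graph MS.rhs ≃g MS.graph fun _ => false) ∧
      ∀ (m n : ℕ) (M : Matrix (Fin m) (Fin n) (ZMod 2)) (b : Fin m → ZMod 2),
        (∃ (B : Type) (_ : CStarAlgebra B) (u : SolutionGroup M b →* unitary B),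
          IsFullGroupCStar (SolutionGroup M b) B u) ∧
        ∀ (B : Type) [CStarAlgebra B] (u : SolutionGroup M b →* unitary B),
          IsFullGroupCStar (SolutionGroup M b) B u →
            ¬ ∃ φ : A →⋆ₐ[ℂ] B, Function.Injective φ) := by
  refine ⟨?_, ?_⟩
  · rintro V W _ _ G H A _ p hp Γ _ B _ u hu ⟨φ⟩
    exact iso_of_hom hp.rel hu φ
  · obtain ⟨A, _, p, hp, hn⟩ := exists_game _ _ pop_rel
    refine ⟨A, inferInstance, p, hp, hn, not_iso, ?_⟩
    intro m n M b
    refine ⟨exists_group _, ?_⟩
    rintro B _ u hu ⟨φ, _⟩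
    exact not_iso (iso_of_hom hp.rel hu φ)

end Pool.Agent.Results.MP_3b70de_al.NoUnitalEmbedding
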